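import Pool.Agent.H190R3.WeiWords
import Pool.Agent.Q205.ThinExt

/-!
# The rainbow Ramsey theorem for pairs is not Weihrauch reducible to the thin version of Hindman's
theorem for sums of exactly two elements

Every finite set is an initial segment of a solution of every instance of the thin version of
Hindman's theorem.  Let `Ψ` output two elements `x < x'` of its solution for an injective instance
`c` after reading finitely much of `c` and of a solution `S`.  Continue `c` so that the pairs
`{x, y}` and `{x', y}` get one colour for all large `y`, and continue the read part of `S` to a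
solution for the new instance.
-/

set_option autoImplicit false

namespace Pool.Agent.Results.MP_527a81_lc.NotReducible

open Pool.Agent.H190R3.Wei

/-- A problem: its instances, which are points of Baire space, and the solutions of each of
them. -/
structure Problem where
  /-- the set of instances -/
  inst : Set (ℕ → ℕ)
  /-- the set of solutions of an instance -/
  sol : (ℕ → ℕ) → Set (ℕ → ℕ)

/-- `z` is the characteristic function of an infinite set of natural numbers. -/
def IsInfiniteSet (z : ℕ → ℕ) : Prop := (∀ n, z n < 2) ∧ {n | z n = 1}.Infinite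

/-- The rainbow Ramsey theorem for pairs and 2-bounded colourings: the colour of the pair `a < b`
under the instance `x` is `x (Nat.pair a b)`, each colour is given to at most two pairs, and the
solutions are the infinite sets on whose pairs the colouring is injective. -/
def RRT22 : Problem where
  inst := {x | ∀ i, {p : ℕ × ℕ | p.1 < p.2 ∧ x (Nat.pair p.1 p.2) = i}.encard ≤ 2}
  sol x := {z | IsInfiniteSet z ∧ ∀ a b a' b', a < b → a' < b' → z a = 1 → z b = 1 →
    z a' = 1 → z b' = 1 → x (Nat.pair a b) = x (Nat.pair a' b') → a = a' ∧ b = b'}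

/-- The thin version of Hindman's theorem for sums of exactly two elements: an instance is any
colouring `x` of the natural numbers with natural numbers, the solutions are the infinite sets `S`
such that `x` omits a colour on the sums of two distinct elements of `S`. -/
def ThinHT2 : Problem where
  inst := Set.univ
  sol x := {z | IsInfiniteSet z ∧ ∃ n, ∀ a b, a ≠ b → z a = 1 → z b = 1 → x (a + b) ≠ n}

/-- The functionals given by `φ` and `ψ` reduce `P` to `Q`: for every instance `x` of `P`, `Φ(x)` is
an instance of `Q`, and for every solution `z` of `Φ(x)`, `Ψ(x ⊕ z)` is a solution of `x`. -/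
def Reduces (φ ψ : List ℕ → List ℕ) (P Q : Problem) : Prop :=
  ∀ x ∈ P.inst, ∃ y ∈ Q.inst, Maps φ x y ∧
    ∀ z ∈ Q.sol y, ∃ w ∈ P.sol x, Maps ψ (pair x z) w

/-- Weihrauch reducibility: the functionals are given by computable monotone word functions. -/
def WeihrauchLE (P Q : Problem) : Prop :=
  ∃ φ ψ : List ℕ → List ℕ, IsMachine φ ∧ IsMachine ψ ∧ Reduces φ ψ P Q

/-- Continuous Weihrauch reducibility: arbitrary word functions. -/
def ContinuousLE (P Q : Problem) : Prop := ∃ φ ψ : List ℕ → List ℕ, Reduces φ ψ P Q

open Classical in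
/-- Every finite part of a set is extended by a solution. -/
theorem extend (y z : ℕ → ℕ) (hz : ∀ k, z k < 2) (n : ℕ) :
    ∃ z' ∈ ThinHT2.sol y, ∀ k < n, z' k = z k := by
  obtain ⟨S, hS1, hS2, k, hS3⟩ := Pool.Agent.Q205.ThinExt.extend y n
    ((Finset.range n).filter fun k => z k = 1)
    (fun x hx => Finset.mem_range.1 (Finset.mem_filter.1 hx).1)
  refine ⟨fun k => if k ∈ S then 1 else 0, ⟨⟨fun k => ?_, ?_⟩, k, ?_⟩, fun k hk => ?_⟩
  · beta_reduce
    split_ifs <;> omega
  · refine hS1.mono fun k hk => ?_
    show (if k ∈ S then 1 else 0) = 1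
    rw [if_pos hk]
  · intro a b hab ha hb
    have ha' : a ∈ S := by by_contra h; simp [h] at ha
    have hb' : b ∈ S := by by_contra h; simp [h] at hb
    rcases lt_or_gt_of_ne hab with h | h
    · exact hS3 a ha' b hb' h
    · rw [add_comm]; exact hS3 b hb' a ha' h
  · beta_reduce
    have h1 := hS2 k hk
    have h2 := hz k
    rw [Finset.mem_filter, Finset.mem_range] at h1
    split_ifs with h
    · exact ((h1.1 h).2).symm
    · have : z k ≠ 1 := fun h3 => h (h1.2 ⟨hk, h3⟩)
      omega

theorem init_congr {x y : ℕ → ℕ} {m : ℕ} (h : ∀ k < m, x k = y k) : init x m = init y m := by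
  apply List.map_congr_left
  intro k hk
  exact h k (List.mem_range.1 hk)

/-- The colouring which merges the pairs `{x, y}` and `{x', y}` for `y ≥ n`. -/
noncomputable def merge (x x' n : ℕ) (k : ℕ) : ℕ :=
  if (Nat.unpair k).1 = x' ∧ n ≤ (Nat.unpair k).2 then Nat.pair x (Nat.unpair k).2 else k

theorem merge_inst (x x' n : ℕ) : merge x x' n ∈ RRT22.inst := by
  intro i
  have h1 : {p : ℕ × ℕ | p.1 < p.2 ∧ merge x x' n (Nat.pair p.1 p.2) = i} ⊆
      {Nat.unpair i, (x', (Nat.unpair i).2)} := by
    rintro ⟨a, b⟩ ⟨-, h2⟩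
    simp only [merge, Nat.unpair_pair] at h2
    split_ifs at h2 with h3
    · right
      rw [← h2, Nat.unpair_pair, ← h3.1]
      rfl
    · left
      rw [← h2, Nat.unpair_pair]
  refine (Set.encard_le_encard h1).trans ((Set.encard_insert_le _ _).trans ?_)
  rw [Set.encard_singleton]
  exact le_of_eq (by norm_num)

theorem not_continuous : ¬ ContinuousLE RRT22 ThinHT2 := by
  rintro ⟨φ, ψ, h⟩
  have hid : (id : ℕ → ℕ) ∈ RRT22.inst := by
    intro i
    have h1 : {p : ℕ × ℕ | p.1 < p.2 ∧ id (Nat.pair p.1 p.2) = i} ⊆ {Nat.unpair i} := by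
      rintro ⟨a, b⟩ ⟨-, h2⟩
      have h3 : Nat.pair a b = i := h2
      rw [Set.mem_singleton_iff, ← h3, Nat.unpair_pair]
    exact (Set.encard_le_encard h1).trans (by rw [Set.encard_singleton]; exact one_le_two)
  obtain ⟨y0, -, -, h0⟩ := h id hid
  obtain ⟨z0, hz0, -⟩ := extend y0 (fun _ => 0) (fun _ => Nat.zero_lt_two) 0
  obtain ⟨w0, hw0, hm0⟩ := h0 z0 hz0
  obtain ⟨x, hx⟩ := hw0.1.2.nonempty
  obtain ⟨x', hx', hxx'⟩ := hw0.1.2.exists_gt x
  obtain ⟨m, hm⟩ := hm0.2 (x' + 1)
  obtain ⟨y1, -, -, h1⟩ := h (merge x x' (m + x' + 1)) (merge_inst _ _ _)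
  obtain ⟨z1, hz1, hz01⟩ := extend y1 z0 hz0.1.1 m
  obtain ⟨w1, hw1, hm1⟩ := h1 z1 hz1
  -- the functional reads the same word
  have hinit : init (pair (merge x x' (m + x' + 1)) z1) m = init (pair id z0) m := by
    apply init_congr
    intro k hk
    unfold pair
    split_ifs with h2
    · show merge x x' (m + x' + 1) (k / 2) = k / 2
      unfold merge
      rw [if_neg]
      rintro ⟨-, h3⟩
      have := Nat.unpair_right_le (k / 2)
      omega
    · exact hz01 _ (by omega)
  have h2 := hm0.1 m
  have h3 := hm1.1 m
  rw [hinit] at h3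
  have h4 : init w0 (ψ (init (pair id z0) m)).length =
      init w1 (ψ (init (pair id z0) m)).length := h2.symm.trans h3
  have key : ∀ k ≤ x', w1 k = w0 k := by
    intro k hk
    have e0 := init_getD w0 (ψ (init (pair id z0) m)).length k 0 (by omega)
    have e1 := init_getD w1 (ψ (init (pair id z0) m)).length k 0 (by omega)
    rw [← e0, ← e1, h4]
  have hx1 : w1 x = 1 := (key x hxx'.le).trans hx
  have hx'1 : w1 x' = 1 := (key x' le_rfl).trans hx'
  obtain ⟨y, hy, hyn⟩ := hw1.1.2.exists_gt (m + x' + 1)
  have h5 := hw1.2 x y x' y (by omega) (by omega) hx1 hy hx'1 hy (by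
    have e1 : merge x x' (m + x' + 1) (Nat.pair x y) = Nat.pair x y := by
      unfold merge
      rw [if_neg]
      rw [Nat.unpair_pair]
      rintro ⟨h6, -⟩
      simp only at h6
      omega
    have e2 : merge x x' (m + x' + 1) (Nat.pair x' y) = Nat.pair x y := by
      unfold merge
      rw [Nat.unpair_pair, if_pos ⟨rfl, by simp only; omega⟩]
    rw [e1, e2])
  omega

/-- **Negative answer to Q1.**  The rainbow Ramsey theorem for pairs is not Weihrauch reducible to
the thin version of Hindman's theorem for sums of exactly two elements, not even by means of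
continuous functionals. -/
theorem result : ¬ WeihrauchLE RRT22 ThinHT2 ∧ ¬ ContinuousLE RRT22 ThinHT2 := by
  refine ⟨?_, not_continuous⟩
  rintro ⟨φ, ψ, -, -, h⟩
  exact not_continuous ⟨φ, ψ, h⟩

end Pool.Agent.Results.MP_527a81_lc.NotReducible
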